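import Mathlib

/-!
# A tiling of the plane by pairwise non-similar integer-sided triangles

Start with the equilateral triangle of side `3² - 1 = 8`.  For `m ≥ 3` the equilateral triangle of
side `m² - 1` is enlarged, across one of its three sides (in cyclic order), to the one of side
`(m+1)² - 1`; the difference is an isosceles trapezoid, which its diagonal, of length `m² + m + 1`,
cuts into triangles with sides `(m² - 1, 2m + 1, m² + m + 1)` and `(2m + 1, m² + 2m, m² + m + 1)`.
-/

set_option autoImplicit false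

namespace Pool.Agent.Results.MP_0d7d47_co.IntegerNonSimilar

/-- the Euclidean plane -/
abbrev Plane : Type := EuclideanSpace ℝ (Fin 2)

/-- the closed triangle with the given vertices -/
def tri (T : Fin 3 → Plane) : Set Plane := convexHull ℝ (Set.range T)

/-- the family of vertex triples `T` gives a tiling of the plane by (non-degenerate, closed)
triangles: they cover the plane and have pairwise disjoint interiors -/
def IsTiling {ι : Type} (T : ι → Fin 3 → Plane) : Prop :=
  (∀ i, AffineIndependent ℝ (T i)) ∧ (⋃ i, tri (T i)) = Set.univ ∧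
    ∀ i j, i ≠ j → Disjoint (interior (tri (T i))) (interior (tri (T j)))

/-- all side lengths are positive integers -/
def IntegerSided (T : Fin 3 → Plane) : Prop :=
  ∀ a b, a ≠ b → ∃ n : ℕ, 0 < n ∧ dist (T a) (T b) = n

/-- the triangles are similar: for some labelling of the vertices the distances are
proportional -/
def Similar (T T' : Fin 3 → Plane) : Prop :=
  ∃ (σ : Equiv.Perm (Fin 3)) (k : ℝ), 0 < k ∧
    ∀ a b, dist (T' (σ a)) (T' (σ b)) = k * dist (T a) (T b)

/-! ### Triangular coordinates -/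

/-- the three linear functionals of sum zero whose level lines are the lattice directions -/
noncomputable def g (l : Fin 3) (p : Plane) : ℝ :=
  match l with
  | 0 => 2 / Real.sqrt 3 * p 0
  | 1 => -(1 / Real.sqrt 3) * p 0 + p 1
  | 2 => -(1 / Real.sqrt 3) * p 0 - p 1

/-- the point with `g i = α` and `g (i + 1) = β` -/
noncomputable def pt (i : Fin 3) (α β : ℝ) : Plane :=
  match i with
  | 0 => !₂[Real.sqrt 3 / 2 * α, (α + 2 * β) / 2]
  | 1 => !₂[-(Real.sqrt 3 / 2 * (α + β)), (α - β) / 2]
  | 2 => !₂[Real.sqrt 3 / 2 * β, -(2 * α + β) / 2]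

lemma s3 : Real.sqrt 3 * Real.sqrt 3 = 3 := Real.mul_self_sqrt (by norm_num)

lemma s3pos : 0 < Real.sqrt 3 := Real.sqrt_pos.mpr (by norm_num)

lemma g_sum (p : Plane) (i : Fin 3) : g i p + g (i + 1) p + g (i + 2) p = 0 := by
  fin_cases i <;> simp [g] <;> ring

lemma g_pt0 (i : Fin 3) (α β : ℝ) : g i (pt i α β) = α := by
  have h := s3pos.ne'
  have h2 := s3
  fin_cases i
  · simp [g, pt]; field_simp
  · simp [g, pt]; field_simp; ring
  · simp [g, pt]; field_simp; ring

lemma g_pt1 (i : Fin 3) (α β : ℝ) : g (i + 1) (pt i α β) = β := by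
  have h := s3pos.ne'
  fin_cases i
  · simp [g, pt]; field_simp; ring
  · simp [g, pt]; field_simp; ring
  · simp [g, pt]; field_simp

lemma g_pt2 (i : Fin 3) (α β : ℝ) : g (i + 2) (pt i α β) = -α - β := by
  have h1 := g_sum (pt i α β) i
  rw [g_pt0, g_pt1] at h1
  linarith

lemma g_comb (l : Fin 3) (A B C : Plane) (a b c : ℝ) :
    g l (a • A + b • B + c • C) = a * g l A + b * g l B + c * g l C := by
  fin_cases l <;> simp [g] <;> ring

lemma ext_g (i : Fin 3) {p q : Plane} (h0 : g i p = g i q) (h1 : g (i + 1) p = g (i + 1) q) :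
    p = q := by
  have h2 : g (i + 2) p = g (i + 2) q := by
    have := g_sum p i
    have := g_sum q i
    linarith
  have h : ∀ l, g l p = g l q := by
    intro l
    fin_cases i <;> fin_cases l <;> first | exact h0 | exact h1 | exact h2
  have a0 := h 0
  have a1 := h 1
  simp only [g] at a0 a1
  have hs := s3pos
  have e0 : p 0 = q 0 := by
    have : (2 / Real.sqrt 3) ≠ 0 := by positivity
    exact mul_left_cancel₀ this a0
  have e1 : p 1 = q 1 := by rw [e0] at a1; linarith
  ext l
  fin_cases l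
  · exact e0
  · exact e1

lemma dist_pt (i : Fin 3) (α β α' β' : ℝ) :
    dist (pt i α β) (pt i α' β') ^ 2 =
      (α - α') ^ 2 + (α - α') * (β - β') + (β - β') ^ 2 := by
  have h2 := s3
  rw [EuclideanSpace.dist_eq, Real.sq_sqrt (by positivity), Fin.sum_univ_two, Real.dist_eq,
    Real.dist_eq, sq_abs, sq_abs]
  fin_cases i
  · simp [pt]
    linear_combination ((α - α') ^ 2 / 4) * h2
  · simp [pt]
    linear_combination ((α + β - α' - β') ^ 2 / 4) * h2
  · simp [pt]
    linear_combination ((β - β') ^ 2 / 4) * h2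

lemma dist_pt' (i : Fin 3) (α β α' β' r : ℝ) (hr : 0 ≤ r)
    (h : (α - α') ^ 2 + (α - α') * (β - β') + (β - β') ^ 2 = r ^ 2) :
    dist (pt i α β) (pt i α' β') = r := by
  rw [← dist_pt] at h
  exact (pow_left_inj₀ dist_nonneg hr (by norm_num)).mp h

lemma mem_tri (T : Fin 3 → Plane) (a b c : ℝ) (ha : 0 ≤ a) (hb : 0 ≤ b) (hc : 0 ≤ c)
    (h : a + b + c = 1) : a • T 0 + b • T 1 + c • T 2 ∈ tri T := by
  have := (convex_convexHull ℝ (Set.range T)).sum_mem (t := Finset.univ) (w := ![a, b, c]) (z := T)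
    (by intro i _; fin_cases i <;> simpa) (by simpa [Fin.sum_univ_three] using h)
    (fun i _ => subset_convexHull ℝ _ ⟨i, rfl⟩)
  unfold tri
  simpa [Fin.sum_univ_three] using this

/-! ### Half planes -/

lemma g_cont (l : Fin 3) : Continuous (g l) := by
  fin_cases l
  · change Continuous fun p : Plane => 2 / Real.sqrt 3 * p 0
    fun_prop
  · change Continuous fun p : Plane => -(1 / Real.sqrt 3) * p 0 + p 1
    fun_prop
  · change Continuous fun p : Plane => -(1 / Real.sqrt 3) * p 0 - p 1
    fun_prop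

/-- the affine function `a g_i + b g_(i+1)` -/
noncomputable def ff (i : Fin 3) (a b : ℝ) (p : Plane) : ℝ := a * g i p + b * g (i + 1) p

lemma tri_le (T : Fin 3 → Plane) (i : Fin 3) (a b c : ℝ) (h : ∀ l, ff i a b (T l) ≤ c) :
    ∀ p ∈ tri T, ff i a b p ≤ c := by
  have hconv : Convex ℝ {p : Plane | ff i a b p ≤ c} := by
    intro p hp q hq x y hx hy hxy
    simp only [Set.mem_ofPred_eq, ff] at *
    have h1 := g_comb i p q 0 x y 0
    have h2 := g_comb (i + 1) p q 0 x y 0
    simp only [smul_zero, add_zero, zero_mul] at h1 h2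
    rw [h1, h2]
    calc a * (x * g i p + y * g i q) + b * (x * g (i + 1) p + y * g (i + 1) q)
        = x * (a * g i p + b * g (i + 1) p) + y * (a * g i q + b * g (i + 1) q) := by ring
      _ ≤ x * c + y * c := by
          exact add_le_add (mul_le_mul_of_nonneg_left hp hx) (mul_le_mul_of_nonneg_left hq hy)
      _ = c := by rw [← add_mul, hxy, one_mul]
  exact convexHull_min (by rintro _ ⟨l, rfl⟩; exact h l) hconv

/-- sets separated by a line have disjoint interiors -/
lemma disj_of_sep (S S' : Set Plane) (i : Fin 3) (a b c : ℝ) (hab : a ≠ 0 ∨ b ≠ 0)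
    (h : ∀ p ∈ S, ff i a b p ≤ c) (h' : ∀ p ∈ S', c ≤ ff i a b p) :
    Disjoint (interior S) (interior S') := by
  rw [Set.disjoint_left]
  intro p hp hp'
  have hop : IsOpen (interior S ∩ interior S') := isOpen_interior.inter isOpen_interior
  -- move in a direction where `ff` increases
  obtain ⟨α, β, hαβ⟩ : ∃ α β : ℝ, 0 < a * α + b * β := by
    rcases hab with h | h
    · exact ⟨a, 0, by simpa using mul_self_pos.mpr h⟩
    · exact ⟨0, b, by simpa using mul_self_pos.mpr h⟩
  have hcont : Continuous fun t : ℝ => p + t • pt i α β := by fun_prop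
  have hpre := hop.preimage hcont
  have h0 : (0 : ℝ) ∈ (fun t : ℝ => p + t • pt i α β) ⁻¹' (interior S ∩ interior S') := by
    simpa using ⟨hp, hp'⟩
  obtain ⟨ε, hε, hball⟩ := Metric.isOpen_iff.1 hpre 0 h0
  have hmem : ε / 2 ∈ Metric.ball (0 : ℝ) ε := by
    rw [Metric.mem_ball, Real.dist_eq, sub_zero, abs_of_pos (by positivity)]
    linarith
  have h1 := hball hmem
  have hq : p + (ε / 2) • pt i α β ∈ S := interior_subset h1.1
  have e : ff i a b (p + (ε / 2) • pt i α β) = ff i a b p + ε / 2 * (a * α + b * β) := by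
    have e1 := g_comb i p (pt i α β) 0 1 (ε / 2) 0
    have e2 := g_comb (i + 1) p (pt i α β) 0 1 (ε / 2) 0
    simp only [smul_zero, add_zero, zero_mul, one_smul, one_mul, g_pt0, g_pt1] at e1 e2
    unfold ff
    rw [e1, e2]; ring
  have h2 := h _ hq
  have h3 := h' _ (interior_subset hp')
  rw [e] at h2
  have : 0 < ε / 2 * (a * α + b * β) := by positivity
  linarith

lemma tri_ge (T : Fin 3 → Plane) (i : Fin 3) (a b c : ℝ) (h : ∀ l, c ≤ ff i a b (T l)) :
    ∀ p ∈ tri T, c ≤ ff i a b p := by
  intro p hp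
  have h1 := tri_le T i (-a) (-b) (-c) (fun l => by have := h l; unfold ff at *; linarith) p hp
  unfold ff at *
  linarith

/-! ### The growing triangles -/

/-- side of the `n`-th equilateral triangle: `m² - 1` with `m = n + 3` -/
noncomputable def sd (n : ℕ) : ℝ := ((n : ℝ) + 3) ^ 2 - 1

/-- increment `2 m + 1` -/
noncomputable def tt (n : ℕ) : ℝ := 2 * ((n : ℝ) + 3) + 1

/-- the diagonal `m² + m + 1` -/
noncomputable def rr (n : ℕ) : ℝ := ((n : ℝ) + 3) ^ 2 + ((n : ℝ) + 3) + 1

lemma sd_pos (n : ℕ) : 0 < sd n := by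
  unfold sd
  have : (0 : ℝ) ≤ n := Nat.cast_nonneg n
  nlinarith

lemma tt_pos (n : ℕ) : 0 < tt n := by unfold tt; positivity

lemma rr_pos (n : ℕ) : 0 < rr n := by unfold rr; positivity

lemma rr_sq (n : ℕ) : sd n ^ 2 + sd n * tt n + tt n ^ 2 = rr n ^ 2 := by
  unfold sd tt rr; ring

lemma sd_succ (n : ℕ) : sd (n + 1) = sd n + tt n := by
  unfold sd tt; push_cast; ring

/-- the side across which the `n`-th triangle is enlarged -/
def idx (n : ℕ) : Fin 3 := ⟨n % 3, Nat.mod_lt n (by norm_num)⟩

/-- the `n`-th triangle is `{g l ≤ B n l}` -/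
noncomputable def B : ℕ → Fin 3 → ℝ
  | 0 => fun l => if l = 0 then 8 else 0
  | n + 1 => fun l => B n l + if l = idx n then tt n else 0

lemma B_succ_idx (n : ℕ) : B (n + 1) (idx n) = B n (idx n) + tt n := by
  simp [B]

lemma B_succ_ne (n : ℕ) (l : Fin 3) (h : l ≠ idx n) : B (n + 1) l = B n l := by
  simp [B, h]

lemma B_le_succ (n : ℕ) (l : Fin 3) : B n l ≤ B (n + 1) l := by
  have := tt_pos n
  by_cases h : l = idx n
  · rw [h, B_succ_idx]; linarith
  · rw [B_succ_ne n l h]

lemma B_mono (l : Fin 3) : Monotone fun n => B n l :=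
  monotone_nat_of_le_succ fun n => B_le_succ n l

lemma B_sum (n : ℕ) (i : Fin 3) : B n i + B n (i + 1) + B n (i + 2) = sd n := by
  induction n with
  | zero => fin_cases i <;> simp [B, sd] <;> norm_num
  | succ n ih =>
    rw [sd_succ, ← ih]
    simp only [B]
    generalize idx n = j
    fin_cases i <;> fin_cases j <;> simp <;> ring

lemma tt_ge_one (n : ℕ) : 1 ≤ tt n := by
  unfold tt
  have : (0 : ℝ) ≤ n := Nat.cast_nonneg n
  linarith

lemma B_big (k : ℕ) (l : Fin 3) : (k : ℝ) ≤ B (3 * k) l := by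
  induction k with
  | zero => fin_cases l <;> simp [B]
  | succ k ih =>
    have h0 := B_le_succ (3 * k) l
    have h1 := B_le_succ (3 * k + 1) l
    have h2 := B_le_succ (3 * k + 2) l
    have e : 3 * (k + 1) = 3 * k + 2 + 1 := by ring
    rw [e]
    push_cast
    have key : ∃ j, j < 3 ∧ l = idx (3 * k + j) := by
      refine ⟨l.1, l.2, ?_⟩
      unfold idx
      apply Fin.ext
      simp
      have := l.2
      omega
    obtain ⟨j, hj, hl⟩ := key
    have a := B_succ_idx (3 * k + j)
    rw [← hl] at a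
    have b := tt_ge_one (3 * k + j)
    interval_cases j
    · simp only [add_zero] at a b; linarith
    · linarith
    · linarith

/-- the closed region of the `n`-th triangle -/
def Tn (n : ℕ) : Set Plane := {p | ∀ l, g l p ≤ B n l}

lemma exists_Tn (p : Plane) : ∃ n, p ∈ Tn n := by
  obtain ⟨k, hk⟩ := exists_nat_ge (max (g 0 p) (max (g 1 p) (g 2 p)))
  refine ⟨3 * k, fun l => ?_⟩
  have h := B_big k l
  have h0 : g 0 p ≤ k := (le_max_left _ _).trans hk
  have h1 : g 1 p ≤ k := ((le_max_left _ _).trans (le_max_right _ _)).trans hk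
  have h2 : g 2 p ≤ k := ((le_max_right _ _).trans (le_max_right _ _)).trans hk
  fin_cases l
  · exact h0.trans h
  · exact h1.trans h
  · exact h2.trans h

/-! ### The tiles -/

/-- the first (equilateral) tile -/
noncomputable def tile0 : Fin 3 → Plane := ![pt 0 0 0, pt 0 8 (-8), pt 0 8 0]

/-- the tile with the `120°` angle at step `n` -/
noncomputable def tileA (n : ℕ) : Fin 3 → Plane :=
  ![pt (idx n) (B n (idx n)) (-(B n (idx n) + B n (idx n + 2))),
    pt (idx n) (B n (idx n) + tt n) (-(B n (idx n) + tt n + B n (idx n + 2))),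
    pt (idx n) (B n (idx n)) (B n (idx n + 1))]

/-- the tile with the `60°` angle at step `n` -/
noncomputable def tileC (n : ℕ) : Fin 3 → Plane :=
  ![pt (idx n) (B n (idx n)) (B n (idx n + 1)),
    pt (idx n) (B n (idx n) + tt n) (B n (idx n + 1)),
    pt (idx n) (B n (idx n) + tt n) (-(B n (idx n) + tt n + B n (idx n + 2)))]

/-- the sides of a triangle -/
def Sides (T : Fin 3 → Plane) (x y z : ℝ) : Prop :=
  dist (T 0) (T 1) = x ∧ dist (T 1) (T 2) = y ∧ dist (T 0) (T 2) = z

lemma sides0 : Sides tile0 8 8 8 := by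
  refine ⟨?_, ?_, ?_⟩
  · exact dist_pt' 0 0 0 8 (-8) 8 (by norm_num) (by norm_num)
  · exact dist_pt' 0 8 (-8) 8 0 8 (by norm_num) (by norm_num)
  · exact dist_pt' 0 0 0 8 0 8 (by norm_num) (by norm_num)

lemma sidesA (n : ℕ) : Sides (tileA n) (tt n) (rr n) (sd n) := by
  have hs := B_sum n (idx n)
  refine ⟨?_, ?_, ?_⟩
  · refine dist_pt' _ _ _ _ _ _ (tt_pos n).le ?_
    ring
  · refine dist_pt' _ _ _ _ _ _ (rr_pos n).le ?_
    rw [← rr_sq, ← hs]; ring
  · refine dist_pt' _ _ _ _ _ _ (sd_pos n).le ?_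
    rw [← hs]; ring

lemma sidesC (n : ℕ) : Sides (tileC n) (tt n) (sd n + tt n) (rr n) := by
  have hs := B_sum n (idx n)
  refine ⟨?_, ?_, ?_⟩
  · refine dist_pt' _ _ _ _ _ _ (tt_pos n).le ?_
    ring
  · refine dist_pt' _ _ _ _ _ _ (add_pos (sd_pos n) (tt_pos n)).le ?_
    rw [← hs]; ring
  · refine dist_pt' _ _ _ _ _ _ (rr_pos n).le ?_
    rw [← rr_sq, ← hs]; ring

lemma mem_tile0 (p : Plane) (hp : p ∈ Tn 0) : p ∈ tri tile0 := by
  have h0 := hp 0
  have h1 := hp 1
  have h2 := hp 2
  simp [B] at h0 h1 h2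
  have hs := g_sum p 0
  simp only [zero_add] at hs
  have key : p = (1 - g 0 p / 8) • tile0 0 + (-(g 1 p) / 8) • tile0 1 +
      (-(g 2 p) / 8) • tile0 2 := by
    apply ext_g 0
    · rw [g_comb]
      simp only [tile0, Matrix.cons_val_zero, Matrix.cons_val_one, Matrix.cons_val]
      rw [g_pt0, g_pt0, g_pt0]
      linarith
    · rw [g_comb]
      simp only [tile0, Matrix.cons_val_zero, Matrix.cons_val_one, Matrix.cons_val]
      rw [g_pt1, g_pt1, g_pt1]
      simp only [zero_add]
      linarith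
  rw [key]
  exact mem_tri _ _ _ _ (by linarith) (by linarith) (by linarith) (by linarith)

lemma step_mem (n : ℕ) (p : Plane) (hp : p ∈ Tn (n + 1)) (hp' : p ∉ Tn n) :
    p ∈ tri (tileA n) ∨ p ∈ tri (tileC n) := by
  have hs := B_sum n (idx n)
  have hsp := sd_pos n
  have htp := tt_pos n
  have hg := g_sum p (idx n)
  have hi1 : idx n + 1 ≠ idx n := by
    generalize idx n = j; fin_cases j <;> decide
  have hi2 : idx n + 2 ≠ idx n := by
    generalize idx n = j; fin_cases j <;> decide
  have h0 := hp (idx n)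
  have h1 := hp (idx n + 1)
  have h2 := hp (idx n + 2)
  rw [B_succ_idx] at h0
  rw [B_succ_ne n _ hi1] at h1
  rw [B_succ_ne n _ hi2] at h2
  have h3 : B n (idx n) < g (idx n) p := by
    by_contra hcon
    apply hp'
    intro l
    by_cases hl : l = idx n
    · rw [hl]; linarith
    · rw [← B_succ_ne n l hl]; exact hp l
  set i := idx n with hi
  set yi := g i p - B n i with hyi
  set yj := B n (i + 1) - g (i + 1) p with hyj
  set yk := B n (i + 2) - g (i + 2) p with hyk
  have hyk' : yk = sd n + yi - yj := by rw [hyi, hyj, hyk, ← hs]; linarith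
  have hst : 0 < sd n + tt n := by linarith
  rcases le_total ((sd n + tt n) * yi) (tt n * yj) with hd | hd
  · left
    have key : p = ((tt n * yj - (sd n + tt n) * yi) / (sd n * tt n)) • tileA n 0 +
        (yi / tt n) • tileA n 1 + (yk / sd n) • tileA n 2 := by
      apply ext_g i
      · rw [g_comb]
        simp only [tileA, Matrix.cons_val_zero, Matrix.cons_val_one, Matrix.cons_val, ← hi]
        rw [g_pt0, g_pt0, g_pt0, hyk']
        field_simp
        rw [hyi, hyj]
        ring
      · rw [g_comb]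
        simp only [tileA, Matrix.cons_val_zero, Matrix.cons_val_one, Matrix.cons_val, ← hi]
        rw [g_pt1, g_pt1, g_pt1, hyk']
        field_simp
        rw [hyi, hyj, ← hs]
        ring
    rw [key]
    refine mem_tri _ _ _ _ ?_ ?_ ?_ ?_
    · apply div_nonneg (by linarith) (by positivity)
    · apply div_nonneg (by linarith) htp.le
    · apply div_nonneg (by linarith) hsp.le
    · rw [hyk']; field_simp; ring
  · right
    have key : p = (1 - yi / tt n) • tileC n 0 +
        (yi / tt n - yj / (sd n + tt n)) • tileC n 1 + (yj / (sd n + tt n)) • tileC n 2 := by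
      apply ext_g i
      · rw [g_comb]
        simp only [tileC, Matrix.cons_val_zero, Matrix.cons_val_one, Matrix.cons_val, ← hi]
        rw [g_pt0, g_pt0, g_pt0]
        field_simp
        rw [hyi]
        ring
      · rw [g_comb]
        simp only [tileC, Matrix.cons_val_zero, Matrix.cons_val_one, Matrix.cons_val, ← hi]
        rw [g_pt1, g_pt1, g_pt1]
        field_simp
        rw [hyj, ← hs]
        ring
    rw [key]
    refine mem_tri _ _ _ _ ?_ ?_ ?_ ?_
    · rw [sub_nonneg, div_le_one htp]; linarith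
    · rw [sub_nonneg, div_le_div_iff₀ hst htp]; linarith
    · apply div_nonneg (by linarith) hst.le
    · ring


/-! ### Separating lines -/

lemma idx_cases (n : ℕ) (l : Fin 3) : l = idx n ∨ l = idx n + 1 ∨ l = idx n + 2 := by
  generalize idx n = j; fin_cases j <;> fin_cases l <;> decide

lemma idx_ne1 (n : ℕ) : idx n + 1 ≠ idx n := by
  generalize idx n = j; fin_cases j <;> decide

lemma idx_ne2 (n : ℕ) : idx n + 2 ≠ idx n := by
  generalize idx n = j; fin_cases j <;> decide

lemma Tn_mono {m n : ℕ} (h : m ≤ n) : Tn m ⊆ Tn n := fun _ hp l => (hp l).trans (B_mono l h)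

lemma Tn_convex (n : ℕ) : Convex ℝ (Tn n) := by
  intro p hp q hq x y hx hy hxy l
  have h1 := g_comb l p q 0 x y 0
  simp only [smul_zero, add_zero, zero_mul] at h1
  rw [h1]
  calc x * g l p + y * g l q ≤ x * B n l + y * B n l :=
        add_le_add (mul_le_mul_of_nonneg_left (hp l) hx) (mul_le_mul_of_nonneg_left (hq l) hy)
    _ = B n l := by rw [← add_mul, hxy, one_mul]

lemma tri_sub_Tn (T : Fin 3 → Plane) (n : ℕ) (h : ∀ l, T l ∈ Tn n) : tri T ⊆ Tn n :=
  convexHull_min (by rintro _ ⟨l, rfl⟩; exact h l) (Tn_convex n)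

lemma tile0_sub : tri tile0 ⊆ Tn 0 := by
  apply tri_sub_Tn
  intro l k
  have e1 : ∀ α β, g 0 (pt 0 α β) = α := g_pt0 0
  have e2 : ∀ α β, g 1 (pt 0 α β) = β := g_pt1 0
  have e3 : ∀ α β, g 2 (pt 0 α β) = -α - β := g_pt2 0
  fin_cases l <;> fin_cases k <;> simp [tile0, e1, e2, e3, B]

/-- membership of a point in `Tn (n+1)` in coordinates -/
lemma pt_mem_succ (n : ℕ) (α β : ℝ) (h0 : α ≤ B n (idx n) + tt n) (h1 : β ≤ B n (idx n + 1))
    (h2 : -α - β ≤ B n (idx n + 2)) : pt (idx n) α β ∈ Tn (n + 1) := by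
  intro l
  rcases idx_cases n l with h | h | h
  · rw [h, g_pt0, B_succ_idx]; exact h0
  · rw [h, g_pt1, B_succ_ne n _ (idx_ne1 n)]; exact h1
  · rw [h, g_pt2, B_succ_ne n _ (idx_ne2 n)]; exact h2

lemma tileA_sub (n : ℕ) : tri (tileA n) ⊆ Tn (n + 1) := by
  apply tri_sub_Tn
  have hs := B_sum n (idx n)
  have h1 := sd_pos n
  have h2 := tt_pos n
  intro l
  fin_cases l
  · exact pt_mem_succ n _ _ (by linarith) (by linarith) (by linarith)
  · exact pt_mem_succ n _ _ (by linarith) (by linarith) (by linarith)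
  · exact pt_mem_succ n _ _ (by linarith) (by linarith) (by linarith)

lemma tileC_sub (n : ℕ) : tri (tileC n) ⊆ Tn (n + 1) := by
  apply tri_sub_Tn
  have hs := B_sum n (idx n)
  have h1 := sd_pos n
  have h2 := tt_pos n
  intro l
  fin_cases l
  · exact pt_mem_succ n _ _ (by linarith) (by linarith) (by linarith)
  · exact pt_mem_succ n _ _ (by linarith) (by linarith) (by linarith)
  · exact pt_mem_succ n _ _ (by linarith) (by linarith) (by linarith)

lemma tileA_ge (n : ℕ) : ∀ p ∈ tri (tileA n), B n (idx n) ≤ ff (idx n) 1 0 p := by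
  apply tri_ge
  have h2 := tt_pos n
  intro l
  fin_cases l
  · change _ ≤ ff (idx n) 1 0 (pt _ _ _)
    rw [ff, g_pt0]; linarith
  · change _ ≤ ff (idx n) 1 0 (pt _ _ _)
    rw [ff, g_pt0]; linarith
  · change _ ≤ ff (idx n) 1 0 (pt _ _ _)
    rw [ff, g_pt0]; linarith

lemma tileC_ge (n : ℕ) : ∀ p ∈ tri (tileC n), B n (idx n) ≤ ff (idx n) 1 0 p := by
  apply tri_ge
  have h2 := tt_pos n
  intro l
  fin_cases l
  · change _ ≤ ff (idx n) 1 0 (pt _ _ _)
    rw [ff, g_pt0]; linarith
  · change _ ≤ ff (idx n) 1 0 (pt _ _ _)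
    rw [ff, g_pt0]; linarith
  · change _ ≤ ff (idx n) 1 0 (pt _ _ _)
    rw [ff, g_pt0]; linarith

lemma Tn_le (n : ℕ) (p : Plane) (hp : p ∈ Tn n) : ff (idx n) 1 0 p ≤ B n (idx n) := by
  have := hp (idx n)
  unfold ff; linarith

/-- the diagonal: the two tiles of a step are separated -/
lemma tileA_diag (n : ℕ) : ∀ p ∈ tri (tileA n), ff (idx n) (sd n + tt n) (tt n) p ≤
    tt n * B n (idx n + 1) + (sd n + tt n) * B n (idx n) := by
  apply tri_le
  have hs := B_sum n (idx n)
  have h1 := sd_pos n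
  have h2 := tt_pos n
  intro l
  fin_cases l
  · change ff (idx n) _ _ (pt _ _ _) ≤ _
    rw [ff, g_pt0, g_pt1]
    have : -(B n (idx n) + B n (idx n + 2)) ≤ B n (idx n + 1) := by linarith
    have := mul_le_mul_of_nonneg_left this h2.le
    linarith
  · change ff (idx n) _ _ (pt _ _ _) ≤ _
    rw [ff, g_pt0, g_pt1]
    have : -(B n (idx n) + tt n + B n (idx n + 2)) = B n (idx n + 1) - (sd n + tt n) := by
      linarith
    rw [this]
    apply le_of_eq
    ring
  · change ff (idx n) _ _ (pt _ _ _) ≤ _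
    rw [ff, g_pt0, g_pt1]
    linarith

lemma tileC_diag (n : ℕ) : ∀ p ∈ tri (tileC n),
    tt n * B n (idx n + 1) + (sd n + tt n) * B n (idx n) ≤
      ff (idx n) (sd n + tt n) (tt n) p := by
  apply tri_ge
  have hs := B_sum n (idx n)
  have h1 := sd_pos n
  have h2 := tt_pos n
  intro l
  fin_cases l
  · change _ ≤ ff (idx n) _ _ (pt _ _ _)
    rw [ff, g_pt0, g_pt1]
    linarith
  · change _ ≤ ff (idx n) _ _ (pt _ _ _)
    rw [ff, g_pt0, g_pt1]
    have : 0 ≤ (sd n + tt n) * tt n := by positivity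
    linarith
  · change _ ≤ ff (idx n) _ _ (pt _ _ _)
    rw [ff, g_pt0, g_pt1]
    have : -(B n (idx n) + tt n + B n (idx n + 2)) = B n (idx n + 1) - (sd n + tt n) := by
      linarith
    rw [this]
    apply le_of_eq
    ring

/-- the family of tiles -/
noncomputable def tiles : Option (ℕ × Bool) → Fin 3 → Plane
  | none => tile0
  | some (n, true) => tileA n
  | some (n, false) => tileC n

lemma cover : (⋃ i, tri (tiles i)) = Set.univ := by
  classical
  rw [Set.eq_univ_iff_forall]
  intro p
  rw [Set.mem_iUnion]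
  have hex := exists_Tn p
  set N := Nat.find hex with hN
  have hmem : p ∈ Tn N := Nat.find_spec hex
  rcases Nat.eq_zero_or_pos N with h0 | hpos
  · refine ⟨none, mem_tile0 p ?_⟩
    rw [← h0]; exact hmem
  · have hnot : p ∉ Tn (N - 1) := Nat.find_min hex (by omega)
    have hN1 : N - 1 + 1 = N := by omega
    rcases step_mem (N - 1) p (by rw [hN1]; exact hmem) hnot with h | h
    · exact ⟨some (N - 1, true), h⟩
    · exact ⟨some (N - 1, false), h⟩

lemma ge_some (n : ℕ) (b : Bool) : ∀ p ∈ tri (tiles (some (n, b))),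
    B n (idx n) ≤ ff (idx n) 1 0 p := by
  cases b
  · exact tileC_ge n
  · exact tileA_ge n

lemma sub_some (n : ℕ) (b : Bool) : tri (tiles (some (n, b))) ⊆ Tn (n + 1) := by
  cases b
  · exact tileC_sub n
  · exact tileA_sub n

lemma disj_step (n : ℕ) (S : Set Plane) (hS : S ⊆ Tn n) (b : Bool) :
    Disjoint (interior S) (interior (tri (tiles (some (n, b))))) :=
  disj_of_sep _ _ (idx n) 1 0 (B n (idx n)) (Or.inl one_ne_zero)
    (fun p hp => Tn_le n p (hS hp)) (ge_some n b)

lemma disj_same (n : ℕ) : Disjoint (interior (tri (tileA n))) (interior (tri (tileC n))) :=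
  disj_of_sep _ _ (idx n) (sd n + tt n) (tt n)
    (tt n * B n (idx n + 1) + (sd n + tt n) * B n (idx n))
    (Or.inr (tt_pos n).ne') (tileA_diag n) (tileC_diag n)

lemma disj (i j : Option (ℕ × Bool)) (hij : i ≠ j) :
    Disjoint (interior (tri (tiles i))) (interior (tri (tiles j))) := by
  rcases i with _ | ⟨n, b⟩
  · rcases j with _ | ⟨m, c⟩
    · exact absurd rfl hij
    · exact disj_step m _ (tile0_sub.trans (Tn_mono (Nat.zero_le m))) c
  · rcases j with _ | ⟨m, c⟩
    · exact (disj_step n _ (tile0_sub.trans (Tn_mono (Nat.zero_le n))) b).symm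
    · rcases lt_trichotomy n m with h | h | h
      · exact disj_step m _ ((sub_some n b).trans (Tn_mono h)) c
      · subst h
        cases b <;> cases c
        · exact absurd rfl hij
        · exact (disj_same n).symm
        · exact disj_same n
        · exact absurd rfl hij
      · exact (disj_step n _ ((sub_some m c).trans (Tn_mono h)) b).symm

/-! ### Non-degeneracy -/

lemma affInd_of_sides (T : Fin 3 → Plane) (x y z : ℝ) (h : Sides T x y z) (h1 : x < y + z)
    (h2 : y < x + z) (h3 : z < x + y) : AffineIndependent ℝ T := by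
  obtain ⟨e1, e2, e3⟩ := h
  rw [affineIndependent_iff_not_collinear]
  intro hcol
  have hr : Set.range T = {T 0, T 1, T 2} := by
    ext p
    simp only [Set.mem_range, Set.mem_insert_iff, Set.mem_singleton_iff]
    constructor
    · rintro ⟨l, rfl⟩
      fin_cases l
      · left; rfl
      · right; left; rfl
      · right; right; rfl
    · rintro (h | h | h)
      · exact ⟨0, h.symm⟩
      · exact ⟨1, h.symm⟩
      · exact ⟨2, h.symm⟩
  rw [hr] at hcol
  rcases hcol.wbtw_or_wbtw_or_wbtw with h | h | h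
  · have := h.dist_add_dist
    rw [e1, e2, e3] at this
    linarith
  · have := h.dist_add_dist
    rw [e2, dist_comm (T 2) (T 0), dist_comm (T 1) (T 0), e1, e3] at this
    linarith
  · have := h.dist_add_dist
    rw [e1, dist_comm (T 2) (T 0), dist_comm (T 2) (T 1), e2, e3] at this
    linarith

lemma sides_pos_ineq (n : ℕ) : sd n + tt n < rr n + tt n ∧ rr n < sd n + tt n ∧ tt n < sd n + rr n
    ∧ sd n + tt n < rr n + tt n := by
  have : (0 : ℝ) ≤ n := Nat.cast_nonneg n
  unfold sd tt rr
  refine ⟨?_, ?_, ?_, ?_⟩ <;> nlinarith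

lemma affInd (i : Option (ℕ × Bool)) : AffineIndependent ℝ (tiles i) := by
  rcases i with _ | ⟨n, b⟩
  · exact affInd_of_sides _ 8 8 8 sides0 (by norm_num) (by norm_num) (by norm_num)
  · have h1 := sd_pos n
    have h2 := tt_pos n
    obtain ⟨a1, a2, a3, a4⟩ := sides_pos_ineq n
    cases b
    · exact affInd_of_sides _ _ _ _ (sidesC n) (by linarith) (by linarith) (by linarith)
    · exact affInd_of_sides _ _ _ _ (sidesA n) (by linarith) (by linarith) (by linarith)

/-! ### Integer sides -/

lemma integerSided_of_sides (T : Fin 3 → Plane) (x y z : ℕ) (hx : 0 < x) (hy : 0 < y)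
    (hz : 0 < z) (h : Sides T x y z) : IntegerSided T := by
  obtain ⟨e1, e2, e3⟩ := h
  intro a b hab
  fin_cases a <;> fin_cases b
  · exact absurd rfl hab
  · exact ⟨x, hx, e1⟩
  · exact ⟨z, hz, e3⟩
  · exact ⟨x, hx, by rw [dist_comm]; exact e1⟩
  · exact absurd rfl hab
  · exact ⟨y, hy, e2⟩
  · exact ⟨z, hz, by rw [dist_comm]; exact e3⟩
  · exact ⟨y, hy, by rw [dist_comm]; exact e2⟩
  · exact absurd rfl hab

lemma integer (i : Option (ℕ × Bool)) : IntegerSided (tiles i) := by
  rcases i with _ | ⟨n, b⟩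
  · exact integerSided_of_sides _ 8 8 8 (by norm_num) (by norm_num) (by norm_num)
      (by have := sides0; simpa [tiles] using this)
  · have e1 : sd n = ((n ^ 2 + 6 * n + 8 : ℕ) : ℝ) := by unfold sd; push_cast; ring
    have e2 : tt n = ((2 * n + 7 : ℕ) : ℝ) := by unfold tt; push_cast; ring
    have e3 : rr n = ((n ^ 2 + 7 * n + 13 : ℕ) : ℝ) := by unfold rr; push_cast; ring
    have e4 : sd n + tt n = ((n ^ 2 + 8 * n + 15 : ℕ) : ℝ) := by rw [e1, e2]; push_cast; ring
    cases b
    · refine integerSided_of_sides _ (2 * n + 7) (n ^ 2 + 8 * n + 15) (n ^ 2 + 7 * n + 13)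
        (by positivity) (by positivity) (by positivity) ?_
      rw [← e2, ← e3, ← e4]; exact sidesC n
    · refine integerSided_of_sides _ (2 * n + 7) (n ^ 2 + 7 * n + 13) (n ^ 2 + 6 * n + 8)
        (by positivity) (by positivity) (by positivity) ?_
      rw [← e1, ← e2, ← e3]; exact sidesA n

/-! ### Non-similarity -/

/-- the sum of the sides -/
noncomputable def per (T : Fin 3 → Plane) : ℝ := ∑ a, ∑ b, dist (T a) (T b)

lemma per_sides (T : Fin 3 → Plane) (x y z : ℝ) (h : Sides T x y z) :
    per T = 2 * (x + y + z) := by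
  obtain ⟨e1, e2, e3⟩ := h
  unfold per
  simp only [Fin.sum_univ_three, dist_self]
  rw [dist_comm (T 1) (T 0), dist_comm (T 2) (T 0), dist_comm (T 2) (T 1), e1, e2, e3]
  ring

/-- the shortest side: a real `s` that occurs as a distance of distinct vertices and is a lower
bound -/
def IsMin (T : Fin 3 → Plane) (s : ℝ) : Prop :=
  (∃ a b, a ≠ b ∧ dist (T a) (T b) = s) ∧ ∀ a b, a ≠ b → s ≤ dist (T a) (T b)

/-- the longest side -/
def IsMax (T : Fin 3 → Plane) (s : ℝ) : Prop :=
  (∃ a b, a ≠ b ∧ dist (T a) (T b) = s) ∧ ∀ a b, a ≠ b → dist (T a) (T b) ≤ s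

lemma isMin_of_sides (T : Fin 3 → Plane) (x y z : ℝ) (h : Sides T x y z) (h1 : x ≤ y)
    (h2 : x ≤ z) : IsMin T x := by
  obtain ⟨e1, e2, e3⟩ := h
  refine ⟨⟨0, 1, by decide, e1⟩, ?_⟩
  intro a b hab
  fin_cases a <;> fin_cases b
  · exact absurd rfl hab
  · exact e1.ge
  · exact h2.trans e3.ge
  · rw [dist_comm]; exact e1.ge
  · exact absurd rfl hab
  · exact h1.trans e2.ge
  · rw [dist_comm]; exact h2.trans e3.ge
  · rw [dist_comm]; exact h1.trans e2.ge
  · exact absurd rfl hab

lemma isMax_of_sides (T : Fin 3 → Plane) (x y z : ℝ) (h : Sides T x y z) (h1 : x ≤ y)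
    (h2 : z ≤ y) : IsMax T y := by
  obtain ⟨e1, e2, e3⟩ := h
  refine ⟨⟨1, 2, by decide, e2⟩, ?_⟩
  intro a b hab
  fin_cases a <;> fin_cases b
  · exact absurd rfl hab
  · exact e1.le.trans h1
  · exact e3.le.trans h2
  · rw [dist_comm]; exact e1.le.trans h1
  · exact absurd rfl hab
  · exact e2.le
  · rw [dist_comm]; exact e3.le.trans h2
  · rw [dist_comm]; exact e2.le
  · exact absurd rfl hab

lemma similar_data (T T' : Fin 3 → Plane) (h : Similar T T') (s s' u u' : ℝ) (hs : IsMin T s)
    (hs' : IsMin T' s') (hu : IsMax T u) (hu' : IsMax T' u') :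
    ∃ k : ℝ, 0 < k ∧ per T' = k * per T ∧ s' = k * s ∧ u' = k * u := by
  obtain ⟨σ, k, hk, h⟩ := h
  refine ⟨k, hk, ?_, ?_, ?_⟩
  · unfold per
    rw [← Equiv.sum_comp σ]
    rw [Finset.mul_sum]
    refine Finset.sum_congr rfl fun a _ => ?_
    rw [← Equiv.sum_comp σ, Finset.mul_sum]
    exact Finset.sum_congr rfl fun b _ => h a b
  · apply le_antisymm
    · obtain ⟨⟨a, b, hab, e⟩, -⟩ := hs
      rw [← e, ← h]
      exact hs'.2 _ _ (fun hc => hab (σ.injective hc))
    · obtain ⟨⟨a, b, hab, e⟩, -⟩ := hs'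
      have := h (σ.symm a) (σ.symm b)
      simp only [Equiv.apply_symm_apply] at this
      rw [← e, this]
      exact mul_le_mul_of_nonneg_left
        (hs.2 _ _ (fun hc => hab (σ.symm.injective hc))) hk.le
  · apply le_antisymm
    · obtain ⟨⟨a, b, hab, e⟩, -⟩ := hu'
      have := h (σ.symm a) (σ.symm b)
      simp only [Equiv.apply_symm_apply] at this
      rw [← e, this]
      exact mul_le_mul_of_nonneg_left
        (hu.2 _ _ (fun hc => hab (σ.symm.injective hc))) hk.le
    · obtain ⟨⟨a, b, hab, e⟩, -⟩ := hu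
      rw [← e, ← h]
      exact hu'.2 _ _ (fun hc => hab (σ.injective hc))

/-- shortest side -/
noncomputable def mn : Option (ℕ × Bool) → ℝ
  | none => 8
  | some (n, _) => tt n

/-- longest side -/
noncomputable def mx : Option (ℕ × Bool) → ℝ
  | none => 8
  | some (n, true) => rr n
  | some (n, false) => sd n + tt n

/-- perimeter over shortest side -/
noncomputable def pm : Option (ℕ × Bool) → ℝ
  | none => 3
  | some (n, true) => n + 4
  | some (n, false) => n + 5

lemma mn_pos (i : Option (ℕ × Bool)) : 0 < mn i := by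
  rcases i with _ | ⟨n, b⟩
  · norm_num [mn]
  · exact tt_pos n

lemma isMin_tiles (i : Option (ℕ × Bool)) : IsMin (tiles i) (mn i) := by
  rcases i with _ | ⟨n, b⟩
  · exact isMin_of_sides _ _ _ _ sides0 le_rfl le_rfl
  · have : (0 : ℝ) ≤ n := Nat.cast_nonneg n
    cases b
    · exact isMin_of_sides _ _ _ _ (sidesC n) (by simp only [mn]; have := sd_pos n; linarith)
        (by simp only [mn]; unfold tt rr; nlinarith)
    · exact isMin_of_sides _ _ _ _ (sidesA n) (by simp only [mn]; unfold tt rr; nlinarith)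
        (by simp only [mn]; unfold tt sd; nlinarith)

lemma isMax_tiles (i : Option (ℕ × Bool)) : IsMax (tiles i) (mx i) := by
  rcases i with _ | ⟨n, b⟩
  · exact isMax_of_sides _ _ _ _ sides0 le_rfl le_rfl
  · have : (0 : ℝ) ≤ n := Nat.cast_nonneg n
    cases b
    · exact isMax_of_sides _ _ _ _ (sidesC n) (by simp only [mx]; have := sd_pos n; linarith)
        (by simp only [mx]; unfold tt rr sd; nlinarith)
    · exact isMax_of_sides _ _ _ _ (sidesA n) (by simp only [mx]; unfold tt rr; nlinarith)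
        (by simp only [mx]; unfold rr sd; nlinarith)

lemma per_tiles (i : Option (ℕ × Bool)) : per (tiles i) = 2 * (pm i * mn i) := by
  rcases i with _ | ⟨n, b⟩
  · rw [tiles, per_sides _ _ _ _ sides0]; simp only [pm, mn]; norm_num
  · cases b
    · rw [tiles, per_sides _ _ _ _ (sidesC n)]
      simp only [pm, mn]
      unfold tt rr sd; ring
    · rw [tiles, per_sides _ _ _ _ (sidesA n)]
      simp only [pm, mn]
      unfold tt rr sd; ring

lemma not_similar (i j : Option (ℕ × Bool)) (hij : i ≠ j) : ¬ Similar (tiles i) (tiles j) := by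
  intro h
  obtain ⟨k, hk, h1, h2, h3⟩ := similar_data _ _ h _ _ _ _ (isMin_tiles i) (isMin_tiles j)
    (isMax_tiles i) (isMax_tiles j)
  have hpm : pm j = pm i := by
    rw [per_tiles, per_tiles, h2] at h1
    have h5 := mn_pos i
    have : (2 * (k * mn i)) * pm j = (2 * (k * mn i)) * pm i := by linarith
    exact mul_left_cancel₀ (by positivity) this
  have hrat : mx j * mn i = mx i * mn j := by rw [h2, h3]; ring
  rcases i with _ | ⟨n, b⟩ <;> rcases j with _ | ⟨m, c⟩
  · exact hij rfl
  · have : (0 : ℝ) ≤ m := Nat.cast_nonneg m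
    cases c <;> simp only [pm] at hpm <;> linarith
  · have : (0 : ℝ) ≤ n := Nat.cast_nonneg n
    cases b <;> simp only [pm] at hpm <;> linarith
  · cases b <;> cases c <;> simp only [pm] at hpm
    · have : n = m := by
        have : (n : ℝ) = m := by linarith
        exact_mod_cast this
      subst this; exact hij rfl
    · -- i = C n, j = A m, m = n + 1
      have e : (m : ℝ) = n + 1 := by linarith
      have hn : (0 : ℝ) ≤ n := Nat.cast_nonneg n
      simp only [mx, mn] at hrat
      unfold rr tt sd at hrat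
      rw [e] at hrat
      nlinarith
    · have e : (n : ℝ) = m + 1 := by linarith
      have hm : (0 : ℝ) ≤ m := Nat.cast_nonneg m
      simp only [mx, mn] at hrat
      unfold rr tt sd at hrat
      rw [e] at hrat
      nlinarith
    · have : n = m := by
        have : (n : ℝ) = m := by linarith
        exact_mod_cast this
      subst this; exact hij rfl

/-- There is a tiling of the plane by integer-sided triangles, no two of which are similar. -/
theorem result : ∃ (ι : Type) (T : ι → Fin 3 → Plane), IsTiling T ∧ (∀ i, IntegerSided (T i)) ∧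
    ∀ i j, i ≠ j → ¬ Similar (T i) (T j) :=
  ⟨Option (ℕ × Bool), tiles, ⟨affInd, cover, disj⟩, integer, not_similar⟩

end Pool.Agent.Results.MP_0d7d47_co.IntegerNonSimilar
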